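import Pool.Agent.Helper17.Psi.Main

/-!
# Composite `n` with `n ∣ ψ(n) - 1` have more than a million distinct prime factors

`ψ(n) = (n / ∏ p) * ∏ (p + 1)`, the products over the prime factors `p` of `n`, is the value of
Dedekind's function, written exactly as in the frozen statements of this problem.
-/

theorem Pool.Agent.Results.MP_6099bd_nt.OmegaMillion.result (n : ℕ) (hn : 1 < n)
    (hcomp : ¬ n.Prime)
    (hpsi : (n / ∏ p ∈ n.primeFactors, p) * (∏ p ∈ n.primeFactors, (p + 1)) ≡ 1 [MOD n]) :
    1000000 < n.primeFactors.card ∧ 10 ^ 5000000 < n :=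
  ⟨Pool.Agent.Helper17.Psi.card_gt n hn hcomp hpsi,
    Pool.Agent.Helper17.Psi.size_gt n hn hcomp hpsi⟩
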